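import Pool.Agent.H35.AH.NB3Tb

/-!
# MP_70ba79_ag, board `ahy_modules`: module NB3T (choice of columns, third case, families)
-/

set_option autoImplicit false

namespace Pool.Agent.H35.AH

open MvPolynomial SC Pool.Agent.H27.LV Pool.Agent.H17.VG Pool.Agent.H17.BO Pool.Agent.H30.VM
open Pool.Agent.H17.CI (Tup IlT PQT TxT frmT upT RatT)
open Pool.Agent.H90.VG (wv exists_extend)
open Pool.Agent.H77.BO (colM abs_det)
open Pool.Agent.H35.VMP (Sym_sum Sym_D Sym_zero UtT_PQT gJ_inj)

theorem pf_NB3T (hSY : Pool.Agent.H30.VM.T_SY) (hWDT : Pool.Agent.H30.VM.T_WDT)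
    (hEVT : Pool.Agent.H30.VM.T_EVT) : Pool.Agent.H17.AH.T_NB3T := by
  classical
  intro R k K _ _ _ _ _ _ n s ι _ _ i₀ e F D D' Z x p hp hS hDD hPt Q τ l hτ hfin J hJ
  obtain ⟨hE1, hE2, hE3, hE4, hE5⟩ := hEVT R K n ι i₀ e F D' Z x hS hPt
  have hDx : (fun i => D' (x i)) = (fun i => D (x i)) := funext fun i => hDD _
  -- the space of velocities
  have hUt := UtT_PQT hSY hWDT hS x p hp Q τ l hτ
  rw [hDx] at hUt
  have hle : UtT R i₀ F x (PQT x Q) ≤ TxT Z F x := by
    refine hE5 _ fun G hG i hi => ?_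
    unfold PQT at hG
    induction hG using Submodule.span_induction with
    | mem G hG =>
      obtain ⟨ξ, j, hξ', rfl⟩ := hG
      have h1 : eval x (lin ξ) = ∑ i, ξ i * x i := by
        unfold lin
        simp
      rw [map_mul, h1, hξ', zero_mul]
    | zero => simp
    | add G G' _ _ h h' => rw [Pi.add_apply, map_add, h, h', add_zero]
    | smul a G _ h => rw [Pi.smul_apply, smul_eq_C_mul, map_mul, h, mul_zero]
  have hI' : LinearIndependent K ![(fun i => D (x i)), x] := by
    have h1 : LinearIndependent K ![x, fun i => D (x i)] := hDx ▸ hPt.dx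
    rw [LinearIndependent.pair_iff] at h1 ⊢
    intro a b hab
    have := h1 b a ((add_comm _ _).trans hab)
    exact ⟨this.2, this.1⟩
  obtain ⟨T0, hLI, hspan⟩ := exists_extend (wv x p τ) (fun i => D (x i)) x hI'
  rw [← hUt] at hspan
  have hcard : T0.card + 3 + Z.card = n := by
    have h1 := finrank_span_eq_card hLI
    rw [hspan] at h1
    have h2 : Fintype.card (T0 ⊕ Fin 2) = T0.card + 2 := by simp
    rw [h2] at h1
    omega
  have hne : ∀ c ∈ T0, c.1 ≠ p := by
    intro c hc hcp
    have h1 := hLI.ne_zero (Sum.inl (⟨c, hc⟩ : T0))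
    apply h1
    simp only [Sum.elim_inl]
    unfold wv
    rw [hcp, hp, one_smul, sub_self]
  obtain ⟨P0, hP0⟩ : ∃ P0 : Finset (Fin (n + 1) × Fin s),
    P0 = Finset.univ.image (fun j : Fin s => (p, j)) := ⟨_, rfl⟩
  obtain ⟨T, hT⟩ : ∃ T : Finset (Fin (n + 1) × Fin s), T = T0 ∪ P0 := ⟨_, rfl⟩
  have hdisj : Disjoint T0 P0 := by
    rw [Finset.disjoint_left]
    intro c hc hc'
    rw [hP0] at hc'
    obtain ⟨j, _, hj⟩ := Finset.mem_image.1 hc'
    exact hne c hc (by rw [← hj])
  have hP0c : P0.card = s := by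
    rw [hP0, Finset.card_image_of_injective _ (fun j j' h => (Prod.mk.inj h).2)]
    simp
  have hTcard : Fintype.card T = T0.card + s := by
    rw [Fintype.card_coe, hT, Finset.card_union_of_disjoint hdisj, hP0c]
  -- sums over `T`
  have hsumT : ∀ (f : Fin (n + 1) × Fin s → K),
      ∑ c : T, f c = ∑ c : T0, f c + ∑ j : Fin s, f (p, j) := by
    intro f
    rw [Finset.sum_coe_sort T f, Finset.sum_coe_sort T0 f, hT, Finset.sum_union hdisj, hP0,
      Finset.sum_image (fun j _ j' _ h => (Prod.mk.inj h).2)]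
  have hcardJ : Fintype.card (((T ⊕ Fin 3) ⊕ Fin 2) ⊕ Z) =
      Fintype.card (Fin (n + 1) ⊕ Fin (s + 1)) := by
    rw [Fintype.card_sum, Fintype.card_sum, Fintype.card_sum, Fintype.card_sum, hTcard,
      Fintype.card_coe]
    simp only [Fintype.card_fin]
    omega
  obtain ⟨e0⟩ : Nonempty (((T ⊕ Fin 3) ⊕ Fin 2) ⊕ Z ≃ Fin (n + 1) ⊕ Fin (s + 1)) :=
    ⟨Fintype.equivOfCardEq hcardJ⟩
  have hwvU : ∀ c, wv x p τ c ∈ UtT R i₀ F x (PQT x Q) := by
    intro c
    rw [hUt]
    exact Submodule.subset_span (Or.inl ⟨_, rfl⟩)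
  have hDU : (fun i => D (x i)) ∈ UtT R i₀ F x (PQT x Q) := by
    rw [hUt]
    exact Submodule.subset_span (Or.inr (Or.inl rfl))
  have hxU : x ∈ UtT R i₀ F x (PQT x Q) := by
    rw [hUt]
    exact Submodule.subset_span (Or.inr (Or.inr rfl))
  -- the complement
  obtain ⟨W, u, hW, huW, huli⟩ := two_indep (UtT R i₀ F x (PQT x Q) ⊔
    Submodule.span K (Set.range (ev (K := K) J))) (by
      have h1 := Submodule.finrank_add_le_finrank_add_finrank (UtT R i₀ F x (PQT x Q))
        (Submodule.span K (Set.range (ev (K := K) J)))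
      have h2 : Module.finrank K (Submodule.span K (Set.range (ev (K := K) J))) ≤ Z.card := by
        refine (finrank_range_le_card (ev (K := K) J)).trans ?_
        rw [Fintype.card_coe]
      omega)
  have hli := li_cols D F x p hp τ T0 P0 T hP0 hT hsumT J hJ _ hle hwvU hDU hxU hLI W hW u huW
    huli
  obtain ⟨σ, ν, hσ, hdual, hann, hdet⟩ := abs_det ((eps T Z).symm.trans e0)
    (oldC D x τ T J) (oldC_last D x τ T J) u hli
  have hnD : ∀ b, ∑ i, ν b i * D (x i) = 0 := by
    intro b
    refine hann b (Pi.single (Sum.inr 0) 1) (fun i => D (x i)) fun r => ?_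
    rw [Matrix.mulVec_single_one]
    rcases r with i | j <;> rfl
  have hnx : ∀ b, ∑ i, ν b i * x i = 0 := by
    intro b
    refine hann b (Pi.single (Sum.inr 1) 1) x fun r => ?_
    rw [Matrix.mulVec_single_one]
    rcases r with i | j <;> rfl
  have hnJ : ∀ b z, ν b (J z) = 0 := by
    intro b z
    have h1 := hann b (Pi.single (Sum.inl (Sum.inr z)) 1) (ev J z) fun r => by
      rw [Matrix.mulVec_single_one]
      rcases r with i | j <;> rfl
    simp only [ev, mul_ite, mul_one, mul_zero] at h1
    rw [Finset.sum_ite_eq, if_pos (Finset.mem_univ _)] at h1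
    exact h1
  have hnw : ∀ b, ∀ c ∈ T0, ∑ i, ν b i * wv x p τ c i = 0 := by
    intro b c hc
    have hcT : c ∈ T := by rw [hT]; exact Finset.mem_union_left _ hc
    have hpT : (p, c.2) ∈ T := by
      rw [hT, hP0]
      exact Finset.mem_union_right _ (Finset.mem_image_of_mem _ (Finset.mem_univ _))
    refine hann b (Pi.single (Sum.inl (Sum.inl ⟨c, hcT⟩)) 1 -
      x c.1 • Pi.single (Sum.inl (Sum.inl ⟨_, hpT⟩)) 1) (wv x p τ c) fun r => ?_
    rw [Matrix.mulVec_sub, Matrix.mulVec_smul, Matrix.mulVec_single_one,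
      Matrix.mulVec_single_one]
    rcases r with i | j
    · rfl
    · show (if c.2.castSucc = j then x c.1 else 0) -
        x c.1 • (if c.2.castSucc = j then x p else 0) = 0
      rw [hp]
      split_ifs
      · rw [smul_eq_mul, mul_one, sub_self]
      · rw [smul_zero, sub_zero]
  refine ⟨T, e0, σ, ν, hσ, ?_, ?_, hnx, hnD, ?_⟩
  · rw [Fintype.linearIndependent_iff]
    intro g hg
    rw [Fintype.sum_sum_type] at hg
    simp only [Sum.elim_inl, Sum.elim_inr] at hg
    -- the coefficients of the gradients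
    have hgz : (fun z : Z => g (Sum.inr z)) = 0 := by
      refine gJ_inj' x J F hJ _ fun z => ?_
      have h1 := congrFun hg (J z)
      simp only [Pi.add_apply, Finset.sum_apply, Pi.smul_apply, smul_eq_mul, Pi.zero_apply,
        hnJ, mul_zero, Finset.sum_const_zero, zero_add] at h1
      exact h1
    have hgz' : ∀ z : Z, g (Sum.inr z) = 0 := fun z => congrFun hgz z
    have hg2 : ∑ b', g (Sum.inl b') • ν b' = 0 := by
      rw [← hg]
      simp only [hgz', zero_smul, Finset.sum_const_zero, add_zero]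
    rintro (b | z)
    · have h1 : ∑ i, (∑ b', g (Sum.inl b') • ν b') i * u b i = g (Sum.inl b) := by
        simp only [Finset.sum_apply, Pi.smul_apply, smul_eq_mul, Finset.sum_mul]
        rw [Finset.sum_comm]
        have h2 : ∀ b', ∑ i, g (Sum.inl b') * ν b' i * u b i =
            if b' = b then g (Sum.inl b') else 0 := by
          intro b'
          have h3 : ∑ i, g (Sum.inl b') * ν b' i * u b i =
              g (Sum.inl b') * ∑ i, ν b' i * u b i := by
            rw [Finset.mul_sum]
            refine Finset.sum_congr rfl fun i _ => ?_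
            ring
          rw [h3, hdual]
          split_ifs
          · rw [mul_one]
          · rw [mul_zero]
        simp only [h2]
        rw [Finset.sum_ite_eq', if_pos (Finset.mem_univ _)]
      rw [← h1, hg2]
      simp
    · exact hgz' z
  · intro b w hw
    rw [← hspan] at hw
    induction hw using Submodule.span_induction with
    | mem w hw =>
      obtain ⟨c, rfl⟩ := hw
      rcases c with c | t
      · exact hnw b c c.2
      · fin_cases t
        · exact hnD b
        · exact hnx b
    | zero => simp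
    | add w w' _ _ h h' =>
      simp only [Pi.add_apply, mul_add]
      rw [Finset.sum_add_distrib, h, h', add_zero]
    | smul a w _ h =>
      have h2 : ∑ i, ν b i * (a • w) i = a * ∑ i, ν b i * w i := by
        rw [Finset.mul_sum]
        refine Finset.sum_congr rfl fun i _ => ?_
        rw [Pi.smul_apply, smul_eq_mul]
        ring
      rw [h2, h, mul_zero]
  · intro τq a
    rw [det_bigP]
    exact hdet (fun t => x (a t)) fun t => opV (τq (a t)) x

end Pool.Agent.H35.AH
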