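import Pool.Agent.H17.AH.TargetsA
import Pool.Agent.H77.BO.NB3a
import Pool.Agent.H35.VMP.NBTa

/-!
# MP_70ba79_ag, board `ahy_modules`: module NB3T (choice of columns, third case), part 1
-/

set_option autoImplicit false

namespace Pool.Agent.H35.AH

open MvPolynomial SC Pool.Agent.H27.LV Pool.Agent.H17.VG Pool.Agent.H17.BO Pool.Agent.H30.VM
open Pool.Agent.H17.CI (Tup IlT PQT TxT frmT upT RatT)
open Pool.Agent.H77.BO (colM abs_det)

section Old

variable {R k K : Type} [Field R] [Field k] [Field K] [Algebra k K] [Algebra R K] {n s : ℕ}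
  {ι : Type} {Z : Finset ι}

/-- reordering of the columns -/
def eps (T Y : Type) : ((T ⊕ Fin 3) ⊕ Fin 2) ⊕ Y ≃ ((T ⊕ Y) ⊕ Fin 3) ⊕ Fin 2 where
  toFun
    | Sum.inl (Sum.inl (Sum.inl t)) => Sum.inl (Sum.inl (Sum.inl t))
    | Sum.inl (Sum.inl (Sum.inr t)) => Sum.inl (Sum.inr t)
    | Sum.inl (Sum.inr t) => Sum.inr t
    | Sum.inr z => Sum.inl (Sum.inl (Sum.inr z))
  invFun
    | Sum.inl (Sum.inl (Sum.inl t)) => Sum.inl (Sum.inl (Sum.inl t))
    | Sum.inl (Sum.inr t) => Sum.inl (Sum.inl (Sum.inr t))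
    | Sum.inr t => Sum.inl (Sum.inr t)
    | Sum.inl (Sum.inl (Sum.inr z)) => Sum.inr z
  left_inv := by rintro (((a | a) | a) | a) <;> rfl
  right_inv := by rintro (((a | a) | a) | a) <;> rfl

/-- the unit vectors of the equations -/
def ev (J : Z → Fin (n + 1)) (z : Z) : Fin (n + 1) → K := fun a => if J z = a then 1 else 0

/-- the old columns -/
noncomputable def oldC (D : Derivation k K K) (x : Fin (n + 1) → K)
    (τ : Fin (n + 1) → Fin s → Op R K n) (T : Finset (Fin (n + 1) × Fin s))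
    (J : Z → Fin (n + 1)) :
    Matrix (Fin (n + 1) ⊕ Fin (s + 1)) ((T ⊕ Z) ⊕ Fin 2) K := Matrix.of fun r c => match c with
  | Sum.inl (Sum.inl c) => Sum.elim (fun a => opV (τ c.1.1 c.1.2) x a)
      (fun b => if c.1.2.castSucc = b then x c.1.1 else 0) r
  | Sum.inl (Sum.inr z) => Sum.elim (fun a => if J z = a then 1 else 0) (fun _ => 0) r
  | Sum.inr t => Sum.elim (fun a => if t = 0 then D (x a) else x a) (fun _ => 0) r

variable (D : Derivation k K K) (x : Fin (n + 1) → K)
    (τ : Fin (n + 1) → Fin s → Op R K n) (T : Finset (Fin (n + 1) × Fin s))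
    (J : Z → Fin (n + 1))

theorem oldC_last (c : (T ⊕ Z) ⊕ Fin 2) : oldC D x τ T J (Sum.inr (Fin.last s)) c = 0 := by
  rcases c with (c | z) | t
  · show (if c.1.2.castSucc = Fin.last s then x c.1.1 else 0) = 0
    rw [if_neg (Fin.castSucc_lt_last _).ne]
  · rfl
  · rfl

theorem oldC_inr (v : (T ⊕ Z) ⊕ Fin 2 → K) (j : Fin s) :
    (oldC D x τ T J).mulVec v (Sum.inr j.castSucc) =
      ∑ t : T, (if t.1.2 = j then x t.1.1 * v (Sum.inl (Sum.inl t)) else 0) := by
  rw [Matrix.mulVec, dotProduct, Fintype.sum_sum_type, Fintype.sum_sum_type,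
    Fin.sum_univ_two]
  simp only [oldC, Matrix.of_apply, Sum.elim_inr, zero_mul, add_zero, Fin.castSucc_inj, ite_mul,
    Finset.sum_const_zero]

theorem oldC_inl (v : (T ⊕ Z) ⊕ Fin 2 → K) (a : Fin (n + 1)) :
    (oldC D x τ T J).mulVec v (Sum.inl a) =
      ∑ t : T, opV (τ t.1.1 t.1.2) x a * v (Sum.inl (Sum.inl t)) +
        ∑ z : Z, (if J z = a then v (Sum.inl (Sum.inr z)) else 0) +
        (D (x a) * v (Sum.inr 0) + x a * v (Sum.inr 1)) := by
  rw [Matrix.mulVec, dotProduct, Fintype.sum_sum_type, Fintype.sum_sum_type,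
    Fin.sum_univ_two]
  simp [oldC]

theorem bigP_eq (τq : Fin (n + 1) → Op R K n) (a : Fin 3 → Fin (n + 1)) :
    bigP D x (Sum.elim (fun c : T => τ c.1.1 c.1.2) (fun t : Fin 3 => τq (a t)))
      (Sum.elim (fun c => c.1.1) (fun t : Fin 3 => a t))
      (Sum.elim (fun c => c.1.2.castSucc) (fun _ => Fin.last s)) J =
    (colM (oldC D x τ T J) fun t => Sum.elim (opV (τq (a t)) x) fun b =>
      if Fin.last s = b then x (a t) else 0).submatrix id (eps T Z) := by
  ext r c
  rcases c with ((c | t) | t) | z <;> rcases r with r | r <;> rfl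

theorem det_bigP [DecidableEq ι]
    (e0 : ((T ⊕ Fin 3) ⊕ Fin 2) ⊕ Z ≃ Fin (n + 1) ⊕ Fin (s + 1))
    (τq : Fin (n + 1) → Op R K n) (a : Fin 3 → Fin (n + 1)) :
    ((bigP D x (Sum.elim (fun c : T => τ c.1.1 c.1.2) (fun t : Fin 3 => τq (a t)))
      (Sum.elim (fun c => c.1.1) (fun t : Fin 3 => a t))
      (Sum.elim (fun c => c.1.2.castSucc) (fun _ => Fin.last s)) J).submatrix e0 id).det =
    ((colM (oldC D x τ T J) fun t => Sum.elim (opV (τq (a t)) x) fun b =>
      if Fin.last s = b then x (a t) else 0).submatrix ((eps T Z).symm.trans e0) id).det := by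
  rw [bigP_eq, ← Matrix.det_submatrix_equiv_self (eps T Z)
    ((colM (oldC D x τ T J) fun t => Sum.elim (opV (τq (a t)) x) fun b =>
      if Fin.last s = b then x (a t) else 0).submatrix ((eps T Z).symm.trans e0) id)]
  congr 1
  ext r c
  simp only [Matrix.submatrix_apply, id, Equiv.trans_apply, Equiv.symm_apply_apply]

/-- the rows of the minor of the gradients are independent -/
theorem gJ_inj' (F : Tup ι K n) (hJ : gJ F x J ≠ 0) (u : Z → K)
    (h : ∀ z : Z, ∑ i : Z, u i * eval x (pderiv (J z) (F i)) = 0) : u = 0 := by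
  unfold gJ at hJ
  letI := Classical.decEq ι
  refine Matrix.eq_zero_of_vecMul_eq_zero hJ ?_
  funext i
  exact h i

/-- two independent vectors in a complement -/
theorem two_indep (V : Submodule K (Fin (n + 1) → K)) (h : Module.finrank K V + 1 ≤ n) :
    ∃ (W : Submodule K (Fin (n + 1) → K)) (u : Fin 2 → Fin (n + 1) → K), Disjoint V W ∧
      (∀ b, u b ∈ W) ∧ LinearIndependent K u := by
  obtain ⟨W, hW⟩ := Submodule.exists_isCompl V
  have hWfin : 2 ≤ Module.finrank K W := by
    have h1 := Submodule.finrank_add_eq_of_isCompl hW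
    rw [Module.finrank_fin_fun] at h1
    omega
  obtain ⟨bW⟩ : Nonempty (Module.Basis (Fin (Module.finrank K W)) K W) :=
    ⟨Module.finBasis K W⟩
  refine ⟨W, fun b => (bW (Fin.castLE hWfin b) : Fin (n + 1) → K), hW.disjoint,
    fun b => (bW _).2, ?_⟩
  have h1 : LinearIndependent K fun b : Fin 2 => bW (Fin.castLE hWfin b) :=
    bW.linearIndependent.comp _ (Fin.castLE_injective hWfin)
  exact h1.map' W.subtype (Submodule.ker_subtype W)

end Old

end Pool.Agent.H35.AH
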