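import Pool.Agent.H35.AH.NB3Ta

/-!
# MP_70ba79_ag, board `ahy_modules`: module NB3T, part 2 (independence of the columns)
-/

set_option autoImplicit false

namespace Pool.Agent.H35.AH

open MvPolynomial SC Pool.Agent.H27.LV Pool.Agent.H17.VG Pool.Agent.H17.BO Pool.Agent.H30.VM
open Pool.Agent.H17.CI (Tup IlT PQT TxT frmT upT RatT)
open Pool.Agent.H90.VG (wv)
open Pool.Agent.H35.VMP (gJ_inj)

section Ind

variable {R k K : Type} [Field R] [Field k] [Field K] [Algebra k K] [Algebra R K] {n s : ℕ}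
  {ι : Type} {Z : Finset ι}

theorem li_cols (D : Derivation k K K) (F : Tup ι K n) (x : Fin (n + 1) → K) (p : Fin (n + 1))
    (hp : x p = 1) (τ : Fin (n + 1) → Fin s → Op R K n)
    (T0 P0 T : Finset (Fin (n + 1) × Fin s))
    (hP0 : P0 = Finset.univ.image (fun j : Fin s => (p, j))) (hT : T = T0 ∪ P0)
    (hsumT : ∀ (f : Fin (n + 1) × Fin s → K),
      ∑ c : T, f c = ∑ c : T0, f c + ∑ j : Fin s, f (p, j))
    (J : Z → Fin (n + 1)) (hJ : gJ F x J ≠ 0)
    (U : Submodule K (Fin (n + 1) → K)) (hle : U ≤ TxT Z F x)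
    (hwvU : ∀ c, wv x p τ c ∈ U) (hDU : (fun i => D (x i)) ∈ U) (hxU : x ∈ U)
    (hLI : LinearIndependent K (Sum.elim (fun c : T0 => wv x p τ c)
      ![(fun i => D (x i)), x]))
    (W : Submodule K (Fin (n + 1) → K))
    (hW : Disjoint (U ⊔ Submodule.span K (Set.range (ev (K := K) J))) W)
    (u : Fin 2 → Fin (n + 1) → K) (huW : ∀ b, u b ∈ W) (huli : LinearIndependent K u)
    (v : (T ⊕ Z) ⊕ Fin 2 → K) (y : Fin 2 → K)
    (hv : ∀ r, (oldC D x τ T J).mulVec v r +
      Sum.elim (fun i => y 0 * u 0 i + y 1 * u 1 i) (fun _ => 0) r = 0) :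
    v = 0 ∧ y = 0 := by
  classical
  obtain ⟨f, hf'⟩ : ∃ f : Fin (n + 1) × Fin s → K, f = fun c =>
    if h : c ∈ T then v (Sum.inl (Sum.inl ⟨c, h⟩)) else 0 := ⟨_, rfl⟩
  have hf : ∀ t : T, v (Sum.inl (Sum.inl t)) = f t := by
    intro t
    rw [hf']
    simp only [dif_pos t.2]
  -- the rows of the families
  have hrj : ∀ j : Fin s, f (p, j) = - ∑ c : T0, if c.1.2 = j then x c.1.1 * f c else 0 := by
    intro j
    have h1 := hv (Sum.inr j.castSucc)
    rw [oldC_inr, Sum.elim_inr, add_zero] at h1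
    simp only [hf] at h1
    have h4 := hsumT (fun c : Fin (n + 1) × Fin s => if c.2 = j then x c.1 * f c else 0)
    rw [h4] at h1
    have h5 : ∑ j' : Fin s, (if j' = j then x p * f (p, j') else 0) = f (p, j) := by
      rw [Finset.sum_ite_eq']
      simp [hp]
    rw [h5] at h1
    linear_combination h1
  obtain ⟨E, hE⟩ : ∃ E : Fin (n + 1) → K, ∀ i, E i =
    ∑ z : Z, if J z = i then v (Sum.inl (Sum.inr z)) else 0 := ⟨_, fun _ => rfl⟩
  -- the rows of the coordinates
  have hra : (∑ c : T0, f c • wv x p τ c + v (Sum.inr 0) • (fun i => D (x i)) +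
      v (Sum.inr 1) • x) + E + (y 0 • u 0 + y 1 • u 1) = 0 := by
    funext a
    have h1 := hv (Sum.inl a)
    rw [oldC_inl, Sum.elim_inl] at h1
    simp only [hf] at h1
    have h4 := hsumT (fun c : Fin (n + 1) × Fin s => opV (τ c.1 c.2) x a * f c)
    rw [h4] at h1
    have h5 : ∑ j : Fin s, opV (τ p j) x a * f (p, j) =
        - ∑ c : T0, x c.1.1 * f c * opV (τ p c.1.2) x a := by
      have h6 : ∀ j : Fin s, opV (τ p j) x a * f (p, j)
          = - ∑ c : T0, if c.1.2 = j then x c.1.1 * f c * opV (τ p j) x a else 0 := by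
        intro j
        rw [hrj, mul_neg, Finset.mul_sum]
        congr 1
        refine Finset.sum_congr rfl fun c _ => ?_
        split_ifs
        · ring
        · ring
      simp only [h6]
      rw [Finset.sum_neg_distrib, Finset.sum_comm]
      congr 1
      refine Finset.sum_congr rfl fun c _ => ?_
      rw [Finset.sum_ite_eq]
      simp
    rw [h5] at h1
    simp only [Pi.add_apply, Finset.sum_apply, Pi.smul_apply, smul_eq_mul, Pi.zero_apply]
    have h7 : ∑ c : T0, f c * wv x p τ c a = ∑ c : T0, opV (τ c.1.1 c.1.2) x a * f c -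
        ∑ c : T0, x c.1.1 * f c * opV (τ p c.1.2) x a := by
      rw [← Finset.sum_sub_distrib]
      refine Finset.sum_congr rfl fun c _ => ?_
      simp only [wv, Pi.sub_apply, Pi.smul_apply, smul_eq_mul]
      ring
    rw [h7, hE]
    linear_combination h1
  obtain ⟨g, hg⟩ : ∃ g, g = ∑ c : T0, f c • wv x p τ c + v (Sum.inr 0) • (fun i => D (x i)) +
      v (Sum.inr 1) • x := ⟨_, rfl⟩
  rw [← hg] at hra
  have hin : g ∈ U := by
    rw [hg]
    apply Submodule.add_mem
    · apply Submodule.add_mem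
      · exact Submodule.sum_mem _ fun c _ => Submodule.smul_mem _ _ (hwvU _)
      · exact Submodule.smul_mem _ _ hDU
    · exact Submodule.smul_mem _ _ hxU
  have hES : E ∈ Submodule.span K (Set.range (ev (K := K) J)) := by
    have h1 : E = ∑ z : Z, v (Sum.inl (Sum.inr z)) • ev (K := K) J z := by
      funext i
      rw [hE, Finset.sum_apply]
      refine Finset.sum_congr rfl fun z _ => ?_
      rw [Pi.smul_apply, smul_eq_mul, ev, mul_ite, mul_one, mul_zero]
    rw [h1]
    exact Submodule.sum_mem _ fun z _ => Submodule.smul_mem _ _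
      (Submodule.subset_span ⟨z, rfl⟩)
  have hinV : g + E ∈ U ⊔ Submodule.span K (Set.range (ev (K := K) J)) :=
    Submodule.add_mem _ (Submodule.mem_sup_left hin) (Submodule.mem_sup_right hES)
  have hinW : y 0 • u 0 + y 1 • u 1 ∈ W :=
    Submodule.add_mem _ (Submodule.smul_mem _ _ (huW 0)) (Submodule.smul_mem _ _ (huW 1))
  have hz0 : y 0 • u 0 + y 1 • u 1 = 0 := by
    have h1 : y 0 • u 0 + y 1 • u 1 ∈ U ⊔ Submodule.span K (Set.range (ev (K := K) J)) := by
      rw [← neg_eq_of_add_eq_zero_right hra]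
      exact Submodule.neg_mem _ hinV
    exact Submodule.disjoint_def.1 hW _ h1 hinW
  have hy : y = 0 := by
    rw [Fintype.linearIndependent_iff] at huli
    funext b
    exact huli y (by rw [Fin.sum_univ_two]; exact hz0) b
  rw [hz0, add_zero] at hra
  -- the columns of the equations
  have hET : E ∈ TxT Z F x := by
    rw [← neg_eq_of_add_eq_zero_right hra]
    exact Submodule.neg_mem _ (hle hin)
  have hz : (fun z : Z => v (Sum.inl (Sum.inr z))) = 0 := by
    refine gJ_inj F x J hJ _ fun i => ?_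
    have h1 : ∑ j, E j * eval x (pderiv j (F i)) = 0 := hET i.1 i.2
    refine Eq.trans ?_ h1
    have h2 : ∀ j, E j * eval x (pderiv j (F i)) =
        ∑ z : Z, if J z = j then v (Sum.inl (Sum.inr z)) * eval x (pderiv j (F i)) else 0 := by
      intro j
      rw [hE, Finset.sum_mul]
      refine Finset.sum_congr rfl fun z _ => ?_
      split_ifs
      · rfl
      · rw [zero_mul]
    simp only [h2]
    rw [Finset.sum_comm]
    refine Finset.sum_congr rfl fun z _ => ?_
    rw [Finset.sum_ite_eq, if_pos (Finset.mem_univ _)]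
    ring
  have hz' : ∀ z : Z, v (Sum.inl (Sum.inr z)) = 0 := fun z => congrFun hz z
  have hE0 : E = 0 := by
    funext i
    rw [hE, Pi.zero_apply]
    refine Finset.sum_eq_zero fun z _ => ?_
    rw [hz' z]
    split_ifs <;> rfl
  rw [hE0, add_zero, hg] at hra
  -- linear independence
  rw [Fintype.linearIndependent_iff] at hLI
  have h1 := hLI (Sum.elim (fun c : T0 => f c) ![v (Sum.inr 0), v (Sum.inr 1)]) (by
    rw [Fintype.sum_sum_type, Fin.sum_univ_two]
    simp only [Sum.elim_inl, Sum.elim_inr, Matrix.cons_val_zero, Matrix.cons_val_one]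
    rw [← add_assoc]
    exact hra)
  have hfT0 : ∀ c ∈ T0, f c = 0 := fun c hc => h1 (Sum.inl ⟨c, hc⟩)
  have hfp : ∀ j, f (p, j) = 0 := by
    intro j
    rw [hrj, Finset.sum_eq_zero, neg_zero]
    intro c _
    rw [hfT0 c c.2]
    simp
  refine ⟨?_, hy⟩
  funext c
  rcases c with (c | z) | t
  · rw [hf, Pi.zero_apply]
    have hc2 : c.1 ∈ T0 ∪ P0 := hT ▸ c.2
    rcases Finset.mem_union.1 hc2 with hc | hc
    · exact hfT0 c hc
    · rw [hP0] at hc
      obtain ⟨j, _, hj⟩ := Finset.mem_image.1 hc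
      rw [← hj]
      exact hfp j
  · exact hz' z
  · have h2 := h1 (Sum.inr t)
    rcases (show t = 0 ∨ t = 1 by omega) with rfl | rfl
    · exact h2
    · exact h2

end Ind

end Pool.Agent.H35.AH
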